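import Pool.Agent.Helper74.UB.Goals4

/-! Packet UB-CAPD: distances in the upper cap. -/

namespace Pool.Agent.Helper86.UB

open Finset Equiv Helper28.VF
open Pool.Agent.Helper74.UB
open scoped Classical

/-- There is a walk of length `n` from `v` to `w`; all vertices after `v` are above row `h`. -/
def Wk {V : Type} (L : Lay V) (h : ℕ) (w : V) : ℕ → V → Prop
  | 0, v => v = w
  | n + 1, v => (h : ℤ) ≤ L.row v ∧ ∃ u, L.adj v u ∧ (h : ℤ) + 1 ≤ L.row u ∧ Wk L h w n u

theorem adj_symm {V : Type} (L : Lay V) {u v : V} (h : L.adj u v) : L.adj v u := by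
  unfold Lay.adj at h ⊢
  tauto

theorem capd : StmtCapD := by
  intro K h V _ L f H w hw
  have hr1 : L.r1 = h + K := H.r1
  have K1 : 1 ≤ K := H.K1
  have hup : ∀ v, L.row v < L.r1 → ∃ k, L.up v k := by
    intro v hv
    obtain ⟨k, ⟨hk, _⟩, _⟩ := H.ax.ul v hv
    exact ⟨k, hk⟩
  -- up from `w`
  have h1 : ∀ j : ℕ, j + 1 ≤ K → ∃ x, L.row x = h + 1 + j ∧ Wk L h w j x := by
    intro j
    induction j with
    | zero => intro _; exact ⟨w, by simpa using hw, rfl⟩
    | succ j ih =>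
      intro hj
      obtain ⟨x, hx, hxw⟩ := ih (by omega)
      obtain ⟨y, hy⟩ := hup x (by rw [hx, hr1]; omega)
      have hry : L.row y = L.row x + 1 := H.ax.up_row x y hy
      refine ⟨y, by rw [hry, hx]; push_cast; ring, ?_⟩
      exact ⟨by rw [hry, hx]; omega, x, Or.inr (Or.inr (Or.inr hy)), by rw [hx]; omega, hxw⟩
  -- the top row
  have h2 : ∀ t, L.row t = L.r1 → ∃ n ≤ K, Wk L h w n t := by
    intro t ht
    obtain ⟨x, hx, hxw⟩ := h1 (K - 1) (by omega)
    have hxr : L.row x = L.r1 := by rw [hx, hr1]; omega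
    have h3 := H.top3 x hxr
    obtain ⟨n, hn⟩ := H.ax.cyc x t (by rw [hxr, ht])
    have h4 : ∀ n : ℕ, (L.e)^[n] x = x ∨ (L.e)^[n] x = L.e x ∨ (L.e)^[n] x = L.e (L.e x) := by
      intro n
      induction n with
      | zero => left; rfl
      | succ n ih =>
        rw [Function.iterate_succ_apply']
        rcases ih with ih | ih | ih
        · rw [ih]; right; left; rfl
        · rw [ih]; right; right; rfl
        · rw [ih, h3]; left; rfl
    have h5 := h4 n
    rw [hn] at h5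
    rcases h5 with h5 | h5 | h5
    · exact ⟨K - 1, by omega, by rw [h5]; exact hxw⟩
    · refine ⟨K - 1 + 1, by omega, ?_, x, Or.inr (Or.inl h5), by rw [hx]; omega, hxw⟩
      rw [ht, hr1]; omega
    · refine ⟨K - 1 + 1, by omega, ?_, x, Or.inl ?_, by rw [hx]; omega, hxw⟩
      · rw [ht, hr1]; omega
      · rw [h5, h3]
  -- down
  have h3 : ∀ i : ℕ, i ≤ K → ∀ v, L.row v = h + K - i → ∃ n ≤ K + i, Wk L h w n v := by
    intro i
    induction i with
    | zero =>
      intro _ v hv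
      obtain ⟨n, hn, hw'⟩ := h2 v (by rw [hv, hr1]; simp)
      exact ⟨n, by omega, hw'⟩
    | succ i ih =>
      intro hi v hv
      obtain ⟨u, hu⟩ := hup v (by rw [hv, hr1]; push_cast; omega)
      have hru : L.row u = L.row v + 1 := H.ax.up_row v u hu
      obtain ⟨n, hn, hw'⟩ := ih (by omega) u (by rw [hru, hv]; push_cast; ring)
      refine ⟨n + 1, by omega, by rw [hv]; push_cast; omega, u, Or.inr (Or.inr (Or.inl hu)), ?_, hw'⟩
      rw [hru, hv]; push_cast; omega
  have h4 : ∀ v, (h : ℤ) ≤ L.row v → ∃ n ≤ 2 * K, Wk L h w n v := by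
    intro v hv
    have hb := (H.ax.bnd v).2
    obtain ⟨i, hi⟩ : ∃ i : ℕ, (i : ℤ) = h + K - L.row v := ⟨(h + K - L.row v).toNat, by
      rw [Int.toNat_of_nonneg]; omega⟩
    obtain ⟨n, hn, hw'⟩ := h3 i (by omega) v (by omega)
    exact ⟨n, by omega, hw'⟩
  set dd : V → ℕ := fun v => sInf {n | Wk L h w n v} with hdd
  have hle : ∀ v n, Wk L h w n v → dd v ≤ n := fun v n hn => Nat.sInf_le hn
  have hmem : ∀ v, (h : ℤ) ≤ L.row v → Wk L h w (dd v) v := by
    intro v hv
    obtain ⟨n, _, hn⟩ := h4 v hv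
    exact Nat.sInf_mem (s := {n | Wk L h w n v}) ⟨n, hn⟩
  have hstep : ∀ v, (h : ℤ) ≤ L.row v → v ≠ w →
      ∃ u, L.adj v u ∧ (h : ℤ) + 1 ≤ L.row u ∧ dd u < dd v := by
    intro v hv hvw
    have h5 := hmem v hv
    rcases hd : dd v with _ | m
    · rw [hd] at h5
      exact absurd h5 hvw
    · rw [hd] at h5
      obtain ⟨_, u, hu1, hu2, hu3⟩ := h5
      exact ⟨u, hu1, hu2, Nat.lt_succ_of_le (hle u m hu3)⟩
  refine ⟨dd, ?_, ?_, ?_, ?_, ?_⟩
  · exact Nat.le_zero.mp (hle w 0 rfl)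
  · intro v hv hvw
    exact hstep v (by omega) hvw
  · intro v hv
    obtain ⟨u, hu1, hu2, hu3⟩ := hstep v (by omega) (by rintro rfl; omega)
    refine ⟨u, ?_, hu3⟩
    rcases hu1 with h5 | h5 | h5 | h5
    · rw [h5, H.ax.row_e] at hu2; omega
    · rw [h5, H.ax.row_e] at hv; omega
    · exact h5
    · have := H.ax.up_row _ _ h5; omega
  · intro v hv
    obtain ⟨n, hn, hw'⟩ := h4 v hv
    exact (hle v n hw').trans (by omega)
  · intro v u hv hu hvu
    exact hle u _ ⟨hu, v, adj_symm L hvu, hv, hmem v (by omega)⟩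

end Pool.Agent.Helper86.UB
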