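import Pool.Agent.Helper74.UB.Goals4

/-! Packet UB-ROWSC: a component does not skip a row. -/

namespace Pool.Agent.Helper86.UB

open Finset Equiv Helper28.VF
open Pool.Agent.Helper74.UB
open scoped Classical

theorem nr_pos {V J : Type} [Fintype V] (row : V → ℤ) (O : Finset (V ⊕ J)) (r : ℤ) (v : V)
    (hv : Sum.inl v ∈ O) (hr : row v = r) : 1 ≤ nr row O r := by
  unfold nr
  refine Finset.card_pos.mpr ⟨v, ?_⟩
  rw [Finset.mem_filter]
  exact ⟨Finset.mem_univ _, hv, hr⟩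

theorem rowsc (h1 : StmtBaseF) : StmtRowsC := by
  intro K h V D E F E' F' _ _ _ _ _ _ L f M dE dW dU dN I M' y0 y1 c v₀ A Q hB s O hO a b ha hb r
    hbr hra
  obtain ⟨_, hQ, _, _, hFA, _⟩ := h1 K h V D E F E' F' L f M dE dW dU dN I M' y0 y1 c v₀ A Q hB
  by_contra hcon
  have hno : ∀ v, (Sum.inl v : VC V I) ∈ O → L.row v ≠ r := by
    intro v hv hvr
    exact hcon (nr_pos L.row O r v hv hvr)
  set X : Finset (VC V I) := O.filter fun u => ∃ v, u = Sum.inl v ∧ r < L.row v with hX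
  have haX : Sum.inl a ∈ X := by
    rw [hX, Finset.mem_filter]
    exact ⟨ha, a, rfl, lt_of_le_of_ne hra (Ne.symm (hno a ha))⟩
  have hbX : Sum.inl b ∉ X := by
    rw [hX, Finset.mem_filter]
    rintro ⟨_, v, hv, hrv⟩
    have : b = v := Sum.inl_injective hv
    subst this
    omega
  have hXO : X ≠ O := by
    intro h2
    exact hbX (h2 ▸ hb)
  obtain ⟨u, huX, v, hvO, hvX, hFuv⟩ := hO.conn X (Finset.filter_subset _ _) ⟨_, haX⟩ hXO
  rw [hX, Finset.mem_filter] at huX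
  obtain ⟨_, u', rfl, hu'⟩ := huX
  obtain ⟨v', rfl⟩ := hQ s v (hO.sub hvO)
  have h3 := hFA u' v' hFuv
  have h4 : ¬ r < L.row v' := by
    intro h5
    exact hvX (by rw [hX, Finset.mem_filter]; exact ⟨hvO, v', rfl, h5⟩)
  have h5 := hno v' hvO
  omega

end Pool.Agent.Helper86.UB
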